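import Pool.Agent.H80.G2.Targets

/-!
Module LIM of the board gmm_modules (MP_323167_an): the limit of the inner involutions is an
outer involution.
-/

set_option autoImplicit false

open scoped InnerProductSpace Topology
open Filter Finset

namespace Pool.Agent.H99.G2

open Pool.Agent.H80.G2

theorem uniq {H : Type} [NormedAddCommGroup H] [InnerProductSpace ℂ H] [CompleteSpace H]
    {N : VonNeumannAlgebra H} {ξ : ℕ → H} (h : IsTr N ξ) {a : ℕ → (H →L[ℂ] H)}
    {z z' : H →L[ℂ] H} (hz : z ∈ N) (hz' : z' ∈ N)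
    (h1 : Tendsto (fun k => n2 ξ (a k - z)) atTop (𝓝 0))
    (h2 : Tendsto (fun k => n2 ξ (a k - z')) atTop (𝓝 0)) : z = z' := by
  have h3 : Tendsto (fun k => n2 ξ (a k - z) + n2 ξ (a k - z')) atTop (𝓝 0) := by
    have := h1.add h2
    rwa [add_zero] at this
  have h4 : n2 ξ (z - z') ≤ 0 := by
    refine ge_of_tendsto' h3 fun k => ?_
    rw [n2_sub_comm ξ (a k) z]
    exact n2_sub_le h.sum z (a k) z'
  have h5 : n2 ξ (z - z') = 0 := le_antisymm h4 (n2_nonneg _ _)
  exact sub_eq_zero.1 (eq_zero_of_n2 h (sub_mem hz hz') h5)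

theorem pf_LIM (hCMP : T_CMP) : T_LIM := by
  intro H _ _ _ N ξ h w hw hc ho
  have hwu : ∀ k, Uni N (w k) := fun k => (hw k).uni
  have hss : ∀ k, star (w k) = w k := fun k => (hw k).2.1
  have hww : ∀ k, w k * w k = 1 := fun k => (hw k).2.2
  have hmem : ∀ k, ∀ x ∈ N, w k * x * w k ∈ N := fun k x hx =>
    mul_mem (mul_mem (hw k).1 hx) (hw k).1
  have hnorm : ∀ k (x : H →L[ℂ] H), ‖w k * x * w k‖ ≤ ‖x‖ := by
    intro k x
    have := norm_conj_le (hwu k) x
    rwa [hss] at this
  have hn2 : ∀ k, ∀ x ∈ N, n2 ξ (w k * x * w k) = n2 ξ x := by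
    intro k x hx
    have := n2_conj h (hwu k) hx
    rwa [hss] at this
  have key : ∀ x ∈ N, ∃ z, z ∈ N ∧ ‖z‖ ≤ ‖x‖ ∧
      Tendsto (fun k => n2 ξ (w k * x * w k - z)) atTop (𝓝 0) := by
    intro x hx
    obtain ⟨z, h1, h2, h3⟩ := hCMP H N ξ h (fun k => w k * x * w k) ‖x‖ (fun k => hmem k x hx)
      (fun k => hnorm k x) (hc x hx)
    exact ⟨z, h1, h2, h3⟩
  choose! θ hm hn ht using key
  refine ⟨θ, ⟨hm, ?_, ?_, ?_, ?_, ?_, ?_, ?_⟩⟩
  · intro x hx y hy
    refine uniq h (hm _ (add_mem hx hy)) (add_mem (hm x hx) (hm y hy)) (ht _ (add_mem hx hy)) ?_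
    have h3 := (ht x hx).add (ht y hy)
    rw [add_zero] at h3
    refine squeeze_zero (fun k => n2_nonneg _ _) (fun k => ?_) h3
    have h4 : w k * (x + y) * w k - (θ x + θ y) =
        (w k * x * w k - θ x) + (w k * y * w k - θ y) := by
      rw [mul_add, add_mul]
      abel
    rw [h4]
    exact n2_add h.sum _ _
  · intro c x hx
    refine uniq h (hm _ (smul_mem' N c hx)) (smul_mem' N c (hm x hx)) (ht _ (smul_mem' N c hx)) ?_
    have h3 := (ht x hx).const_mul ‖c‖
    rw [mul_zero] at h3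
    refine h3.congr fun k => ?_
    rw [← n2_smul h.sum, smul_sub, mul_smul_comm, smul_mul_assoc]
  · intro x hx y hy
    refine uniq h (hm _ (mul_mem hx hy)) (mul_mem (hm x hx) (hm y hy)) (ht _ (mul_mem hx hy)) ?_
    have h3 := ((ht y hy).const_mul ‖x‖).add ((ht x hx).mul_const ‖θ y‖)
    rw [mul_zero, zero_mul, add_zero] at h3
    refine squeeze_zero (fun k => n2_nonneg _ _) (fun k => ?_) h3
    have h4 : w k * (x * y) * w k = (w k * x * w k) * (w k * y * w k) := by
      calc w k * (x * y) * w k = w k * x * 1 * (y * w k) := by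
            rw [mul_one]; simp only [mul_assoc]
        _ = w k * x * (w k * w k) * (y * w k) := by rw [hww]
        _ = _ := by simp only [mul_assoc]
    have h5 : w k * (x * y) * w k - θ x * θ y =
        (w k * x * w k) * (w k * y * w k - θ y) + (w k * x * w k - θ x) * θ y := by
      rw [h4, mul_sub, sub_mul]
      abel
    rw [h5]
    refine (n2_add h.sum _ _).trans (add_le_add ?_ ?_)
    · refine (n2_mul_le h.sum _ _).trans ?_
      exact mul_le_mul_of_nonneg_right (hnorm k x) (n2_nonneg _ _)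
    · exact n2_mul_le' h (sub_mem (hmem k x hx) (hm x hx)) (hm y hy)
  · intro x hx
    refine uniq h (hm _ (star_mem hx)) (star_mem (hm x hx)) (ht _ (star_mem hx)) ?_
    refine (ht x hx).congr fun k => ?_
    rw [← n2_star h (sub_mem (hmem k x hx) (hm x hx)), star_sub, star_mul, star_mul, hss,
      mul_assoc]
  · intro x hx
    refine uniq h (hm _ (hm x hx)) hx (ht _ (hm x hx)) ?_
    refine (ht x hx).congr fun k => ?_
    have h4 : w k * θ x * w k - x = w k * (θ x - w k * x * w k) * w k := by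
      have h5 : w k * (w k * x * w k) * w k = x := by
        calc w k * (w k * x * w k) * w k = (w k * w k) * x * (w k * w k) := by
              simp only [mul_assoc]
          _ = x := by rw [hww, one_mul, mul_one]
      rw [mul_sub, sub_mul, h5]
    rw [h4, hn2 k _ (sub_mem (hm x hx) (hmem k x hx)), n2_sub_comm]
  · intro x hx
    have h3 : |n2 ξ (θ x) - n2 ξ x| ≤ 0 := by
      refine ge_of_tendsto' (ht x hx) fun k => ?_
      rw [abs_le]
      have h4 := n2_sub_le h.sum (w k * x * w k) (θ x) 0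
      have h5 := n2_sub_le h.sum (θ x) (w k * x * w k) 0
      rw [sub_zero, sub_zero, hn2 k x hx] at h4 h5
      rw [n2_sub_comm ξ (θ x)] at h5
      constructor <;> linarith
    have h4 := abs_nonneg (n2 ξ (θ x) - n2 ξ x)
    have h5 : |n2 ξ (θ x) - n2 ξ x| = 0 := le_antisymm h3 h4
    linarith [abs_eq_zero.1 h5]
  · intro v hv
    obtain ⟨x, hx, hx2⟩ := ho v hv
    refine ⟨x, hx, fun he => hx2 ?_⟩
    rw [← he]
    exact ht x hx

end Pool.Agent.H99.G2
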