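import Pool.Agent.H80.G2.Targets

/-!
Module ZPR of the board gmm_modules (MP_323167_an): central projections of algebras which are
not factors.
-/

set_option autoImplicit false

open scoped InnerProductSpace Topology
open Filter Finset

namespace Pool.Agent.H99.G2

open Pool.Agent.H80.G2

theorem pf_ZPR (hCFC : T_CFC) (hRNG : T_RNG) : T_ZPR := by
  intro H _ _ _ P hP
  unfold IsFac at hP
  push Not at hP
  obtain ⟨x, hx, hxc, hxs⟩ := hP
  -- a central self-adjoint element which is not scalar
  have hsc : ∀ y ∈ P, star x * y = y * star x := by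
    intro y hy
    have h1 := congrArg star (hxc (star y) (star_mem hy))
    rw [star_mul, star_mul, star_star] at h1
    exact h1.symm
  obtain ⟨h, hh, hhs, hhc, hhn⟩ : ∃ h ∈ P, star h = h ∧ (∀ y ∈ P, h * y = y * h) ∧
      ∀ c : ℂ, h ≠ c • (1 : H →L[ℂ] H) := by
    by_cases h1 : ∃ c : ℂ, x + star x = c • (1 : H →L[ℂ] H)
    · refine ⟨Complex.I • (x - star x), smul_mem' P _ (sub_mem hx (star_mem hx)), ?_, ?_, ?_⟩
      · rw [star_smul, star_sub, star_star, Complex.star_def, Complex.conj_I, neg_smul,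
          ← smul_neg, neg_sub]
      · intro y hy
        rw [smul_mul_assoc, mul_smul_comm, sub_mul, mul_sub, hxc y hy, hsc y hy]
      · intro c hc
        obtain ⟨d, hd⟩ := h1
        apply hxs ((1 / 2 : ℂ) * (d - Complex.I * c))
        have h2 : x - star x = (-Complex.I * c) • (1 : H →L[ℂ] H) := by
          rw [mul_smul, ← hc, smul_smul, neg_mul, Complex.I_mul_I, neg_neg, one_smul]
        have h3 : x = (1 / 2 : ℂ) • ((x + star x) + (x - star x)) := by module
        rw [h3, h2, hd, ← add_smul, smul_smul]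
        congr 1
        ring
    · push Not at h1
      refine ⟨x + star x, add_mem hx (star_mem hx), ?_, ?_, h1⟩
      · rw [star_add, star_star, add_comm]
      · intro y hy
        rw [add_mul, mul_add, hxc y hy, hsc y hy]
  have hsa : IsSelfAdjoint h := hhs
  have hnt : Nontrivial (H →L[ℂ] H) := by
    refine ⟨⟨h, 0, ?_⟩⟩
    have := hhn 0
    rwa [zero_smul] at this
  -- two points of the spectrum
  obtain ⟨s, hs, t, ht, hst⟩ : ∃ s ∈ spectrum ℝ h, ∃ t ∈ spectrum ℝ h, s < t := by
    by_contra hcon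
    push Not at hcon
    obtain ⟨a, ha⟩ := ContinuousFunctionalCalculus.spectrum_nonempty (R := ℝ) h hsa
    apply hhn (a : ℂ)
    have h1 : cfc (fun t : ℝ => t) h = cfc (fun _ : ℝ => a) h := by
      refine cfc_congr fun t ht => ?_
      exact le_antisymm (hcon a ha t ht) (hcon t ht a ha)
    rw [cfc_id' ℝ h hsa, cfc_const a h hsa] at h1
    rw [h1, Algebra.algebraMap_eq_smul_one, Complex.coe_smul]
  obtain ⟨m, hm⟩ : ∃ m : ℝ, m = (s + t) / 2 := ⟨_, rfl⟩
  have hfc : Continuous fun u : ℝ => max (u - m) 0 := by fun_prop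
  have hgc : Continuous fun u : ℝ => max (m - u) 0 := by fun_prop
  obtain ⟨k, hk⟩ : ∃ k, k = cfc (fun u : ℝ => max (u - m) 0) h := ⟨_, rfl⟩
  obtain ⟨l, hl⟩ : ∃ l, l = cfc (fun u : ℝ => max (m - u) 0) h := ⟨_, rfl⟩
  have hkP : k ∈ P := by rw [hk]; exact hCFC H P h hh hhs _
  have hks : star k = k := by rw [hk]; exact (cfc_predicate (fun u : ℝ => max (u - m) 0) h)
  have hkc : k ∈ P.commutant := by
    rw [hk]
    refine hCFC H P.commutant h ?_ hhs _
    rw [VonNeumannAlgebra.mem_commutant_iff]
    intro y hy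
    exact (hhc y hy).symm
  have hk0 : k ≠ 0 := by
    intro h0
    have h1 : cfc (fun u : ℝ => max (u - m) 0) h = cfc (fun _ : ℝ => (0 : ℝ)) h := by
      rw [← hk, h0, cfc_const_zero]
    have h2 := (cfc_eq_cfc_iff_eqOn (a := h) (ha := hsa) (hf := hfc.continuousOn)
      (hg := continuousOn_const)).1 h1
    have h3 := h2 ht
    simp only at h3
    rw [max_eq_left (by rw [hm]; linarith)] at h3
    rw [hm] at h3
    linarith
  have hl0 : l ≠ 0 := by
    intro h0
    have h1 : cfc (fun u : ℝ => max (m - u) 0) h = cfc (fun _ : ℝ => (0 : ℝ)) h := by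
      rw [← hl, h0, cfc_const_zero]
    have h2 := (cfc_eq_cfc_iff_eqOn (a := h) (ha := hsa) (hf := hgc.continuousOn)
      (hg := continuousOn_const)).1 h1
    have h3 := h2 hs
    simp only at h3
    rw [max_eq_left (by rw [hm]; linarith)] at h3
    rw [hm] at h3
    linarith
  have hlk : l * k = 0 := by
    rw [hl, hk, ← cfc_mul _ _ h hgc.continuousOn hfc.continuousOn, ← cfc_const_zero ℝ h]
    refine cfc_congr fun u _ => ?_
    rcases le_total u m with h1 | h1
    · rw [max_eq_right (sub_nonpos.2 h1), mul_zero]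
    · rw [max_eq_right (sub_nonpos.2 h1), zero_mul]
  obtain ⟨e, he, hek, hr, hc⟩ := hRNG H P k hkP hks
  refine ⟨e, he, ?_, ?_, ?_⟩
  · intro y hy
    rw [VonNeumannAlgebra.mem_commutant_iff] at hkc
    exact (hc y (hkc y hy) (hkc (star y) (star_mem hy))).symm
  · intro h0
    rw [h0, zero_mul] at hek
    exact hk0 hek.symm
  · intro h1
    have h2 := hr l hlk
    rw [h1, mul_one] at h2
    exact hl0 h2

end Pool.Agent.H99.G2
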